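import Pool.Agent.Q61.MP885

set_option autoImplicit false

open MeasureTheory InnerProductSpace Laplacian Topology Filter Set
open scoped ContDiff

namespace Pool.Agent.Results.MP_885c89_an.UnboundedSolution

/-- Case `m = 3`: in `ℝ^6` there are a continuous, compactly supported (hence bounded) function `V`
and a smooth function `u` with `(-Δ)^3 u = V e^{6u}` everywhere, `e^{6u}` integrable, such that `u` is
not essentially bounded from above. -/
theorem result : ∃ (V u : EuclideanSpace ℝ (Fin 6) → ℝ),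
    Continuous V ∧ HasCompactSupport V ∧ (∃ C : ℝ, ∀ x, |V x| ≤ C) ∧ ContDiff ℝ ∞ u ∧
    (∀ x, -(Δ (Δ (Δ u))) x = V x * Real.exp (2 * 3 * u x)) ∧
    Integrable (fun x => Real.exp (2 * 3 * u x)) ∧
    ∀ M : ℝ, 0 < volume {x | M < u x} := by
  refine ⟨Q61.M885.V, Q61.M885.u, Q61.M885.V_cont, Q61.M885.V_supp, ?_, Q61.M885.u_smooth, ?_, ?_, ?_⟩
  · obtain ⟨C, hC⟩ := Q61.M885.V_supp.exists_bound_of_continuous Q61.M885.V_cont
    exact ⟨C, fun x => hC x⟩
  · intro x
    rw [show (2 * 3 * Q61.M885.u x) = 6 * Q61.M885.u x by ring]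
    exact Q61.M885.eqn x
  · have e : (fun x => Real.exp (2 * 3 * Q61.M885.u x)) = fun x => Real.exp (6 * Q61.M885.u x) := by
      funext x; congr 1; ring
    rw [e]
    exact Q61.M885.integ
  · intro M
    have ho : IsOpen {x | M < Q61.M885.u x} := isOpen_lt continuous_const Q61.M885.u_smooth.continuous
    exact ho.measure_pos _ (Q61.M885.unbounded M)

end Pool.Agent.Results.MP_885c89_an.UnboundedSolution
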